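import Pool.Agent.Y350.Z2.Repr

/-! # A variant of the representation lemma

For every real `t` with `|t| ≤ 1 / 2` either some `t x_i` is far from the integers or the cosine of
`2 π t u` is nonnegative; then `u` is a combination of the `x_i` with small coefficients. -/

open Finset

namespace Pool.Agent.Y898.D

open Pool.Agent.Y350.Z2

theorem repr_of_cos {ι : Type*} [Fintype ι] (x : ι → ℤ) (B : ℝ) (hB : 1 ≤ B)
    (hx : ∀ i, |(x i : ℝ)| ≤ B) (m r : ℕ) (hm : 1 ≤ m) (ε : ℝ) (hε : 0 < ε)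
    (hsmall : ((Fintype.card ι * r * m + 1) * B + 1) * (1 / (2 * m * ε)) ^ (2 * r) < 1)
    (u : ℤ) (hu : |(u : ℝ)| ≤ B)
    (h : ∀ t : ℝ, |t| ≤ 1 / 2 → (∃ i, ∀ z : ℤ, ε ≤ |t * x i - z|) ∨
      0 ≤ Real.cos (2 * Real.pi * (t * u))) :
    ∃ l : ι → ℤ, (∀ i, |l i| ≤ r * m) ∧ ∑ i, l i * x i = u := by
  classical
  by_contra hcon
  push Not at hcon
  set k := Fintype.card ι with hk
  set Y : ℝ := ((k : ℝ) * r * m + 1) * B with hY
  have hY0 : 0 ≤ Y := by positivity
  set N : ℕ := ⌊Y⌋₊ + 1 with hN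
  have hNY : Y < N := by
    rw [hN]; push_cast; exact Nat.lt_floor_add_one Y
  have hNY' : (N : ℝ) ≤ Y + 1 := by
    rw [hN]; push_cast; linarith [Nat.floor_le hY0]
  have hNpos : 0 < N := Nat.succ_pos _
  have hNposR : (0 : ℝ) < N := by exact_mod_cast hNpos
  set s : ℕ := (N - 1) / 2 with hs
  have hsN : s < N := by omega
  set T : ℕ → ℝ := fun j => ((j : ℝ) - s) / N with hT
  have hTabs : ∀ j ∈ range N, |T j| ≤ 1 / 2 := by
    intro j hj
    have hj' : j < N := Finset.mem_range.mp hj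
    have h1 : 2 * (j : ℤ) - 2 * s ≤ N := by omega
    have h2 : 2 * (s : ℤ) - 2 * j ≤ N := by omega
    have h1' : 2 * (j : ℝ) - 2 * s ≤ N := by exact_mod_cast h1
    have h2' : 2 * (s : ℝ) - 2 * j ≤ N := by exact_mod_cast h2
    rw [hT]
    simp only
    rw [abs_div, abs_of_pos hNposR, div_le_iff₀ hNposR, abs_le]
    constructor <;> linarith
  -- the kernel
  set P : ℝ → ℝ := fun t => ∏ i, (‖D m (t * x i)‖ ^ 2) ^ r with hP
  have hzero : ∑ j ∈ range N, E (T j * (-u : ℤ)) * ((P (T j) : ℝ) : ℂ) = 0 := by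
    have h1 : ∀ j ∈ range N, E (T j * (-u : ℤ)) * ((P (T j) : ℝ) : ℂ)
        = ∑ f : (ι × Fin r × Bool) → Fin m,
          E (T j * ((∑ i, (∑ q : Fin r × Bool, sg q.2 * ((f (i, q) : ℕ) : ℤ)) * x i - u : ℤ) : ℝ)) := by
      intro j _
      rw [hP]
      simp only
      rw [kernel_expand, Finset.mul_sum]
      refine Finset.sum_congr rfl fun f _ => ?_
      rw [← E_add]
      congr 1
      push_cast
      ring
    rw [Finset.sum_congr rfl h1, Finset.sum_comm]
    refine Finset.sum_eq_zero fun f _ => ?_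
    set l : ι → ℤ := fun i => ∑ q : Fin r × Bool, sg q.2 * ((f (i, q) : ℕ) : ℤ) with hl
    have hlb : ∀ i, |l i| ≤ r * m := fun i => coef_bound m r f i
    have hne : (∑ i, l i * x i - u : ℤ) ≠ 0 := sub_ne_zero.mpr (hcon l hlb)
    refine sum_E_eq_zero N hNpos s _ hne ?_
    refine lt_of_le_of_lt ?_ hNY
    rw [Int.cast_sub, Int.cast_sum]
    have h2 : |(∑ i, (l i : ℝ) * (x i : ℝ))| ≤ (k : ℝ) * r * m * B := by
      refine (Finset.abs_sum_le_sum_abs _ _).trans ?_
      have h3 : ∀ i ∈ (Finset.univ : Finset ι), |(l i : ℝ) * (x i : ℝ)| ≤ (r : ℝ) * m * B := by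
        intro i _
        rw [abs_mul]
        have h4 : |(l i : ℝ)| ≤ (r : ℝ) * m := by
          have := hlb i
          exact_mod_cast this
        exact mul_le_mul h4 (hx i) (abs_nonneg _) (by positivity)
      refine (Finset.sum_le_sum h3).trans ?_
      rw [Finset.sum_const, Finset.card_univ, nsmul_eq_mul]
      apply le_of_eq
      rw [hk]
      ring
    have h5 : (∑ i, ((l i * x i : ℤ) : ℝ)) = ∑ i, (l i : ℝ) * (x i : ℝ) :=
      Finset.sum_congr rfl fun i _ => by push_cast; ring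
    calc |(∑ i, ((l i * x i : ℤ) : ℝ)) - (u : ℝ)|
        ≤ |(∑ i, ((l i * x i : ℤ) : ℝ))| + |(u : ℝ)| := abs_sub _ _
      _ = |(∑ i, (l i : ℝ) * (x i : ℝ))| + |(u : ℝ)| := by rw [h5]
      _ ≤ (k : ℝ) * r * m * B + B := add_le_add h2 hu
      _ = Y := by rw [hY]; ring
  -- real parts
  have hre : ∑ j ∈ range N, Real.cos (2 * Real.pi * (T j * u)) * P (T j) = 0 := by
    have h1 := congrArg Complex.re hzero
    rw [Complex.re_sum] at h1
    rw [Complex.zero_re] at h1
    rw [← h1]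
    refine Finset.sum_congr rfl fun j _ => ?_
    rw [Complex.re_mul_ofReal, E_re]
    congr 1
    rw [show 2 * Real.pi * (T j * ((-u : ℤ) : ℝ)) = -(2 * Real.pi * (T j * u)) by push_cast; ring,
      Real.cos_neg]
  have hm0 : (0 : ℝ) < m := by exact_mod_cast hm
  set q : ℝ := (1 / (2 * m * ε)) ^ (2 * r) with hq
  have hq0 : 0 ≤ q := by positivity
  set W : ℝ := ∏ _i : ι, ((m : ℝ) ^ 2) ^ r with hW
  have hWpos : 0 < W := by positivity
  have hP0 : ∀ t, 0 ≤ P t := fun t => Finset.prod_nonneg fun i _ => by positivity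
  have hPq : ∀ t : ℝ, (∃ i, ∀ z : ℤ, ε ≤ |t * x i - z|) → P t ≤ q * W := by
    rintro t ⟨i, hi⟩
    have h3 := D_norm_le' m (t * x i) hε hi
    have h4 : (‖D m (t * x i)‖ ^ 2) ^ r ≤ q * ((m : ℝ) ^ 2) ^ r := by
      have h5 : q * ((m : ℝ) ^ 2) ^ r = ((1 / (2 * ε)) ^ 2) ^ r := by
        rw [hq, pow_mul, ← mul_pow, ← mul_pow]
        congr 2
        field_simp
      rw [h5]
      gcongr
    have h6 : P t = (‖D m (t * x i)‖ ^ 2) ^ r * ∏ i' ∈ univ.erase i, (‖D m (t * x i')‖ ^ 2) ^ r := by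
      rw [hP]; simp only
      rw [Finset.mul_prod_erase univ (fun i' => (‖D m (t * x i')‖ ^ 2) ^ r) (Finset.mem_univ i)]
    have h7 : W = ((m : ℝ) ^ 2) ^ r * ∏ i' ∈ univ.erase i, ((m : ℝ) ^ 2) ^ r := by
      rw [hW]
      rw [Finset.mul_prod_erase univ (fun _ => ((m : ℝ) ^ 2) ^ r) (Finset.mem_univ i)]
    rw [h6, h7, ← mul_assoc]
    refine mul_le_mul h4 ?_ (Finset.prod_nonneg fun i _ => by positivity) (by positivity)
    refine Finset.prod_le_prod (fun i _ => by positivity) fun i' _ => ?_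
    have := D_norm_le m (t * x i')
    gcongr
  -- lower bounds for the terms
  have hterm : ∀ j ∈ range N, -(q * W) ≤ Real.cos (2 * Real.pi * (T j * u)) * P (T j) := by
    intro j hj
    rcases h (T j) (hTabs j hj) with h0 | h1
    · have h1 := hPq (T j) h0
      have h2 : -1 ≤ Real.cos (2 * Real.pi * (T j * u)) := Real.neg_one_le_cos _
      have h3 := hP0 (T j)
      nlinarith
    · have h2 := mul_nonneg h1 (hP0 (T j))
      have h3 : 0 ≤ q * W := by positivity
      linarith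
  have hTs : T s = 0 := by rw [hT]; simp
  have hs0 : Real.cos (2 * Real.pi * (T s * u)) * P (T s) = W := by
    rw [hTs]
    simp only [hP, hW, zero_mul, mul_zero, Real.cos_zero, one_mul]
    refine Finset.prod_congr rfl fun i _ => ?_
    rw [D_zero]
    simp
  have hsum : W + q * W ≤ ∑ j ∈ range N, (Real.cos (2 * Real.pi * (T j * u)) * P (T j) + q * W) := by
    have h9 := Finset.single_le_sum
      (f := fun j => Real.cos (2 * Real.pi * (T j * u)) * P (T j) + q * W)
      (fun j hj => by linarith [hterm j hj]) (Finset.mem_range.mpr hsN)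
    rw [hs0] at h9
    exact h9
  rw [Finset.sum_add_distrib, hre, zero_add, Finset.sum_const, Finset.card_range, nsmul_eq_mul] at hsum
  have h8 : (N : ℝ) * q < 1 := by
    refine lt_of_le_of_lt ?_ hsmall
    exact mul_le_mul_of_nonneg_right hNY' hq0
  nlinarith [mul_lt_mul_of_pos_right h8 hWpos, mul_nonneg hq0 hWpos.le]

end Pool.Agent.Y898.D
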