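import Pool.Agent.Y716.D.Defs
import Pool.Agent.Y898.D.Repr

/-! # The kernel lemma for good pairs of vectors, quadratic forms (job D1) -/

open Finset

namespace Pool.Agent.Y898.D

open Pool.Agent.Y716.Q Pool.Agent.Y716.C Pool.Agent.Y716.D

variable {ι : Type*} [Fintype ι]

/-- value of the quadratic form with an integral matrix -/
def qv (c : ι → ι → ℤ) (x : ι → ℤ) : ℤ := ∑ i, ∑ j, c i j * (x i * x j)

/-- the form of an integral matrix -/
noncomputable def qf (c : ι → ι → ℤ) : MvPolynomial ι ℤ :=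
  ∑ i, lin (c i) * MvPolynomial.X i

theorem eval_qf (c : ι → ι → ℤ) (x : ι → ℤ) : MvPolynomial.eval x (qf c) = qv c x := by
  unfold qf qv
  rw [map_sum]
  refine Finset.sum_congr rfl (fun i _ => ?_)
  rw [map_mul, eval_lin, MvPolynomial.eval_X, Finset.sum_mul]
  exact Finset.sum_congr rfl (fun j _ => by ring)

theorem qf_isF (c : ι → ι → ℤ) {R : ℝ} (hR : 0 ≤ R) (h : ∀ i j, |(c i j : ℝ)| ≤ R) :
    IsF 2 (Fintype.card ι * R) (qf c) := by
  have h2 := IsF.sum Finset.univ (fun i => lin (c i) * MvPolynomial.X i)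
    (fun _ => R) (fun i _ => (lin_isF (c i) hR (h i)).mul_X i)
  rwa [Finset.sum_const, Finset.card_univ, nsmul_eq_mul] at h2

theorem qv_add (c d : ι → ι → ℤ) (x : ι → ℤ) :
    qv (fun i j => c i j + d i j) x = qv c x + qv d x := by
  unfold qv
  rw [← Finset.sum_add_distrib]
  refine Finset.sum_congr rfl (fun i _ => ?_)
  rw [← Finset.sum_add_distrib]
  exact Finset.sum_congr rfl (fun j _ => by ring)

theorem qv_sub (c d : ι → ι → ℤ) (x : ι → ℤ) :
    qv (fun i j => c i j - d i j) x = qv c x - qv d x := by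
  unfold qv
  rw [← Finset.sum_sub_distrib]
  refine Finset.sum_congr rfl (fun i _ => ?_)
  rw [← Finset.sum_sub_distrib]
  exact Finset.sum_congr rfl (fun j _ => by ring)

/-- There is an integral matrix vanishing at `x` with value `v` at `y`. -/
theorem exists_c0 {x y : ι → ℤ} (hy : Prim y) {g : ℤ}
    (hgmax : ∀ D, (∀ i j, D ∣ mn x y i j) → D ∣ g) {v : ℤ} (hv : g ∣ v) :
    ∃ c : ι → ι → ℤ, qv c x = 0 ∧ qv c y = v := by
  classical
  have hL : ∃ L : ι → ℤ, ∑ i, L i * x i = 0 ∧ ∑ i, L i * y i = g := by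
    let J : Ideal ℤ :=
      { carrier := {w | ∃ L : ι → ℤ, ∑ i, L i * x i = 0 ∧ ∑ i, L i * y i = w}
        add_mem' := by
          rintro a b ⟨L, h1, h2⟩ ⟨L', h1', h2'⟩
          refine ⟨fun i => L i + L' i, ?_, ?_⟩
          · simp only [add_mul, Finset.sum_add_distrib, h1, h1', add_zero]
          · simp only [add_mul, Finset.sum_add_distrib, h2, h2']
        zero_mem' := ⟨fun _ => 0, by simp, by simp⟩
        smul_mem' := by
          rintro c a ⟨L, h1, h2⟩
          refine ⟨fun i => c * L i, ?_, ?_⟩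
          · simp only [mul_assoc, ← Finset.mul_sum, h1, mul_zero]
          · simp only [mul_assoc, ← Finset.mul_sum, h2, smul_eq_mul] }
    obtain ⟨d, hd⟩ := (IsPrincipalIdealRing.principal J).principal
    have hmem : ∀ i j, mn x y i j ∈ J := by
      intro i0 j0
      refine ⟨fun i => (if i = j0 then x i0 else 0) - (if i = i0 then x j0 else 0), ?_, ?_⟩
      · simp only [sub_mul, ite_mul, zero_mul, Finset.sum_sub_distrib, Finset.sum_ite_eq',
          Finset.mem_univ, if_true]
        ring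
      · simp only [sub_mul, ite_mul, zero_mul, Finset.sum_sub_distrib, Finset.sum_ite_eq',
          Finset.mem_univ, if_true]
        unfold mn; ring
    have hdd : ∀ i j, d ∣ mn x y i j := by
      intro i j
      have := hmem i j
      rw [hd] at this
      exact Ideal.mem_span_singleton.mp this
    have hg : g ∈ J := by
      rw [hd]
      exact Ideal.mem_span_singleton.mpr (hgmax d hdd)
    exact hg
  obtain ⟨L, hL1, hL2⟩ := hL
  obtain ⟨h, hh⟩ := hy.bezout
  obtain ⟨w, hw⟩ := hv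
  have hmul : ∀ z : ι → ℤ, qv (fun i j => w * L i * h j) z =
      w * (∑ i, L i * z i) * (∑ j, h j * z j) := by
    intro z
    unfold qv
    rw [mul_assoc, Finset.sum_mul_sum, Finset.mul_sum]
    refine Finset.sum_congr rfl (fun i _ => ?_)
    rw [Finset.mul_sum]
    exact Finset.sum_congr rfl (fun j _ => by ring)
  refine ⟨fun i j => w * L i * h j, ?_, ?_⟩
  · rw [hmul, hL1]; ring
  · rw [hmul, hL2, hh, hw]; ring

/-- Integral matrix with small entries, almost the right values. -/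
theorem exists_f1 {B μ : ℝ} {x y : ι → ℤ} (hB : 1 ≤ B) (hx : Sz B x) (hy : Sz B y) (hμ0 : 0 < μ)
    (hμ : ∃ i j, μ ≤ |(mn x y i j : ℝ)|) (v : ℤ) :
    ∃ f : ι → ι → ℤ, (∀ i j, |(f i j : ℝ)| ≤ 4 * |(v : ℝ)| / μ + 1) ∧
      |(qv f x : ℝ)| ≤ B ^ 2 ∧ |((v - qv f y : ℤ) : ℝ)| ≤ B ^ 2 := by
  classical
  obtain ⟨i0, j0, hij⟩ := hμ
  obtain ⟨s, hs⟩ := hy.2
  have hmn0 : (mn x y i0 j0 : ℝ) ≠ 0 := by
    intro h
    rw [h, abs_zero] at hij
    linarith
  have hne : i0 ≠ j0 := by
    rintro rfl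
    apply hmn0
    have : mn x y i0 i0 = 0 := by unfold mn; ring
    rw [this]; simp
  have hs' : 0 < |(y s : ℝ)| := lt_of_lt_of_le (by linarith) hs
  have hys : (y s : ℝ) ≠ 0 := abs_pos.mp hs'
  set q : ℝ := (v : ℝ) / ((mn x y i0 j0 : ℝ) * y s) with hq
  have hqv : q * ((mn x y i0 j0 : ℝ) * y s) = v := by
    rw [hq]; field_simp
  have hqabs : |q| * B ≤ 4 * |(v : ℝ)| / μ := by
    rw [hq, abs_div, abs_mul, div_mul_eq_mul_div, div_le_div_iff₀ (by positivity) hμ0]
    have h1 : μ * (B / 4) ≤ |(mn x y i0 j0 : ℝ)| * |(y s : ℝ)| :=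
      mul_le_mul hij hs (by linarith) (abs_nonneg _)
    have h2 := mul_le_mul_of_nonneg_left h1 (abs_nonneg (v : ℝ))
    nlinarith
  -- the matrix
  set A1 : ℤ := round ((x i0 : ℝ) * q) with hA1
  set A2 : ℤ := round (-((x j0 : ℝ) * q)) with hA2
  have h1 : |(x i0 : ℝ) * q - A1| ≤ 1 / 2 := abs_sub_round _
  have h2 : |-((x j0 : ℝ) * q) - A2| ≤ 1 / 2 := abs_sub_round _
  have hxq : ∀ i, |(x i : ℝ) * q| ≤ 4 * |(v : ℝ)| / μ := by
    intro i
    rw [abs_mul, mul_comm]
    exact (mul_le_mul_of_nonneg_left (hx.1 i) (abs_nonneg _)).trans hqabs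
  have hA1b : |(A1 : ℝ)| ≤ 4 * |(v : ℝ)| / μ + 1 := by
    have h3 := hxq i0
    have h4 : (A1 : ℝ) = (x i0 : ℝ) * q - ((x i0 : ℝ) * q - A1) := by ring
    rw [h4]
    refine (abs_sub _ _).trans ?_
    linarith
  have hA2b : |(A2 : ℝ)| ≤ 4 * |(v : ℝ)| / μ + 1 := by
    have h3 := hxq j0
    have h4 : (A2 : ℝ) = -((x j0 : ℝ) * q) - (-((x j0 : ℝ) * q) - A2) := by ring
    rw [h4]
    refine (abs_sub _ _).trans ?_
    rw [abs_neg]
    linarith
  refine ⟨fun i j => if j = s then (if i = j0 then A1 else if i = i0 then A2 else 0) else 0,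
    ?_, ?_⟩
  · intro i j
    have h0 : 0 ≤ 4 * |(v : ℝ)| / μ + 1 := by positivity
    simp only
    split_ifs
    · exact hA1b
    · exact hA2b
    · simpa using h0
    · simpa using h0
  · have hval : ∀ z : ι → ℤ, qv (fun i j => if j = s then
        (if i = j0 then A1 else if i = i0 then A2 else 0) else 0) z =
        A1 * (z j0 * z s) + A2 * (z i0 * z s) := by
      intro z
      unfold qv
      have e1 : ∀ i, ∑ j, (if j = s then (if i = j0 then A1 else if i = i0 then A2 else 0) else 0) *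
          (z i * z j) = (if i = j0 then A1 * (z j0 * z s) else 0) +
            (if i = i0 then A2 * (z i0 * z s) else 0) := by
        intro i
        rw [Finset.sum_eq_single s]
        · rw [if_pos rfl]
          by_cases h3 : i = j0
          · subst h3
            rw [if_pos rfl, if_pos rfl, if_neg (Ne.symm hne), add_zero]
          · by_cases h4 : i = i0
            · subst h4
              rw [if_neg h3, if_pos rfl, if_neg h3, if_pos rfl, zero_add]
            · rw [if_neg h3, if_neg h4, if_neg h3, if_neg h4]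
              ring
        · intro j _ hj
          rw [if_neg hj, zero_mul]
        · intro h; exact absurd (Finset.mem_univ _) h
      rw [Finset.sum_congr rfl (fun i _ => e1 i), Finset.sum_add_distrib, Finset.sum_ite_eq',
        Finset.sum_ite_eq']
      simp only [Finset.mem_univ, if_true]
    rw [hval, hval]
    have hsm : ∀ (z : ι → ℤ), (∀ i, |(z i : ℝ)| ≤ B) → ∀ (e : ℝ) (i : ι), |e| ≤ 1 / 2 →
        |e * ((z i : ℝ) * z s)| ≤ B ^ 2 / 2 := by
      intro z hz e i he
      rw [abs_mul, abs_mul]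
      have h3 : |(z i : ℝ)| * |(z s : ℝ)| ≤ B * B :=
        mul_le_mul (hz i) (hz s) (abs_nonneg _) (by linarith)
      have h4 := mul_le_mul he h3 (by positivity) (by norm_num)
      nlinarith
    constructor
    · have h3 : ((A1 * (x j0 * x s) + A2 * (x i0 * x s) : ℤ) : ℝ) =
          -(((x i0 : ℝ) * q - A1) * ((x j0 : ℝ) * x s)) -
            ((-((x j0 : ℝ) * q) - A2) * ((x i0 : ℝ) * x s)) := by
        push_cast; ring
      rw [h3]
      refine (abs_sub _ _).trans ?_
      rw [abs_neg]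
      have h4 := hsm x hx.1 _ j0 h1
      have h5 := hsm x hx.1 _ i0 h2
      linarith
    · have h3 : ((v - (A1 * (y j0 * y s) + A2 * (y i0 * y s)) : ℤ) : ℝ) =
          (((x i0 : ℝ) * q - A1) * ((y j0 : ℝ) * y s)) +
            ((-((x j0 : ℝ) * q) - A2) * ((y i0 : ℝ) * y s)) := by
        push_cast
        rw [← hqv]
        unfold mn
        push_cast
        ring
      rw [h3]
      refine (abs_add_le _ _).trans ?_
      have h4 := hsm y hy.1 _ j0 h1
      have h5 := hsm y hy.1 _ i0 h2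
      linarith

theorem small_coef {c w B ε μ D : ℝ} (hB : 1 ≤ B) (hμ0 : 0 < μ) (hw : B / 4 ≤ |w|)
    (hD : μ ≤ |D|) (h : |c * w * D| ≤ 2 * B * ε) (h64 : 64 * ε * B ^ 2 ≤ μ) :
    |c| * B ^ 2 ≤ 1 / 8 := by
  rw [abs_mul, abs_mul] at h
  have h1 : |c| * (B / 4) * μ ≤ |c| * |w| * |D| :=
    mul_le_mul (mul_le_mul_of_nonneg_left hw (abs_nonneg _)) hD hμ0.le (by positivity)
  have h2 : |c| * (B / 4) * μ ≤ 2 * B * ε := h1.trans h
  have h3 : |c| * μ ≤ 8 * ε := by
    have hB0 : 0 < B := by linarith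
    have : (|c| * μ) * B ≤ (8 * ε) * B := by
      have e1 : |c| * (B / 4) * μ = (|c| * μ) * B / 4 := by ring
      have e2 : 2 * B * ε = (8 * ε) * B / 4 := by ring
      rw [e1, e2] at h2
      linarith
    exact le_of_mul_le_mul_right this hB0
  have h4 : (|c| * B ^ 2) * μ ≤ (1 / 8) * μ := by
    have h5 : (|c| * μ) * B ^ 2 ≤ (8 * ε) * B ^ 2 := mul_le_mul_of_nonneg_right h3 (by positivity)
    have e1 : (|c| * B ^ 2) * μ = (|c| * μ) * B ^ 2 := by ring
    rw [e1]
    linarith
  exact le_of_mul_le_mul_right h4 hμ0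

theorem small_contr {a b w B ε E1 E2 : ℝ} (hB : 1 ≤ B) (ha : |a| ≤ B) (hb : |b| ≤ B)
    (h1 : |E1| < ε) (h2 : |E2| < ε) (hw : w = a * E1 - b * E2) : |w| ≤ 2 * B * ε := by
  rw [hw]
  refine (abs_sub _ _).trans ?_
  rw [abs_mul, abs_mul]
  have h3 := mul_le_mul ha h1.le (abs_nonneg _) (by linarith)
  have h4 := mul_le_mul hb h2.le (abs_nonneg _) (by linarith)
  linarith

theorem kernel_good (ι : Type*) [Fintype ι] : KernelGood ι := by
  classical
  intro B ε μ x y g m r hB hx hpx hy hpy hg0 hg hgmax hμ0 hμ hε hgood h64 hm hr hnum v hv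
  obtain ⟨c0, hc0x, hc0y⟩ := exists_c0 hpy hgmax hv
  obtain ⟨f1, hf1, hu', hv'⟩ := exists_f1 hB hx hy hμ0 hμ v
  obtain ⟨i0, j0, hij⟩ := hμ
  obtain ⟨sx, hsx⟩ := hx.2
  obtain ⟨sy, hsy⟩ := hy.2
  have hk1 : (1 : ℝ) ≤ Fintype.card ι := by
    have : 0 < Fintype.card ι := Fintype.card_pos_iff.mpr ⟨sx⟩
    exact_mod_cast this
  set k : ℝ := (Fintype.card ι : ℝ) with hk
  -- the number W
  set W : ℝ := (k ^ 2 * r * m + 1) * B ^ 2 with hW
  have hB2 : 1 ≤ B ^ 2 := one_le_pow₀ hB
  have hkrm : 0 ≤ k ^ 2 * r * m := by positivity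
  have hBW : B ^ 2 ≤ W := by rw [hW]; nlinarith
  have hW1 : 1 ≤ W := hB2.trans hBW
  obtain ⟨Q, hQ1, hQ2⟩ : ∃ Q : ℤ, W < Q ∧ (Q : ℝ) ≤ W + 1 := by
    refine ⟨⌊W⌋ + 1, ?_, ?_⟩
    · push_cast; exact Int.lt_floor_add_one W
    · push_cast; linarith [Int.floor_le W]
  have hQ0 : 0 < (Q : ℝ) := by linarith
  have hQpos : 0 < Q := by exact_mod_cast hQ0
  -- the difference matrix
  set d : ι → ι → ℤ := fun i j => c0 i j - f1 i j with hd
  have hdx : qv d x = - qv f1 x := by rw [hd, qv_sub, hc0x, zero_sub]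
  have hdy : qv d y = v - qv f1 y := by rw [hd, qv_sub, hc0y]
  set u' : ℤ := qv d x with hu'def
  set v' : ℤ := qv d y with hv'def
  have hu1 : |(u' : ℝ)| ≤ B ^ 2 := by rw [hdx]; push_cast; rwa [abs_neg]
  have hv1 : |(v' : ℝ)| ≤ B ^ 2 := by rw [hdy]; exact hv'
  -- the one dimensional problem
  set X : ι × ι → ℤ := fun p => x p.1 * x p.2 + Q * (y p.1 * y p.2) with hX
  set u : ℤ := u' + Q * v' with hu
  set B' : ℝ := (1 + Q) * B ^ 2 with hB'
  have hB'1 : 1 ≤ B' := by rw [hB']; nlinarith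
  have hprod : ∀ z : ι → ℤ, (∀ i, |(z i : ℝ)| ≤ B) → ∀ i j, |(z i : ℝ) * z j| ≤ B ^ 2 := by
    intro z hz i j
    rw [abs_mul, sq]
    exact mul_le_mul (hz i) (hz j) (abs_nonneg _) (by linarith)
  have hXb : ∀ p, |(X p : ℝ)| ≤ B' := by
    intro p
    rw [hX, hB']
    push_cast
    refine (abs_add_le _ _).trans ?_
    rw [abs_mul (Q : ℝ), abs_of_pos hQ0]
    have h1 := hprod x hx.1 p.1 p.2
    have h2 := hprod y hy.1 p.1 p.2
    nlinarith
  have hub : |(u : ℝ)| ≤ B' := by
    rw [hu, hB']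
    push_cast
    refine (abs_add_le _ _).trans ?_
    rw [abs_mul (Q : ℝ), abs_of_pos hQ0]
    nlinarith
  have hq0 : 0 ≤ (1 / (2 * (m : ℝ) * ε)) ^ (2 * r) := by positivity
  have hnum' : ((Fintype.card (ι × ι) * r * m + 1) * B' + 1) * (1 / (2 * m * ε)) ^ (2 * r) < 1 := by
    refine lt_of_le_of_lt (mul_le_mul_of_nonneg_right ?_ hq0) hnum
    rw [Fintype.card_prod]
    push_cast
    rw [← hk]
    have h1 : (k * k * r * m + 1) * B' = W * (1 + Q) := by rw [hB', hW]; ring
    rw [h1]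
    have h2 : W * (1 + Q) ≤ W * (W + 2) := mul_le_mul_of_nonneg_left (by linarith) (by linarith)
    have h3 : W ^ 2 ≤ W ^ 3 := by nlinarith [sq_nonneg W]
    have h4 : W ≤ W ^ 2 := by nlinarith
    nlinarith
  have hcos : ∀ t : ℝ, |t| ≤ 1 / 2 → (∃ p, ∀ z : ℤ, ε ≤ |t * X p - z|) ∨
      0 ≤ Real.cos (2 * Real.pi * (t * u)) := by
    intro t _
    by_cases hp : ∃ p, ∀ z : ℤ, ε ≤ |t * X p - z|
    · exact Or.inl hp
    · right
      push Not at hp
      choose M hM using hp
      obtain ⟨a', b', hab⟩ := hgood t (t * Q) (fun i j => M (i, j)) (by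
        intro i j
        have := hM (i, j)
        rw [hX] at this
        push_cast at this
        have e : t * ((x i : ℝ) * x j + Q * (y i * y j)) =
          t * ((x i : ℝ) * x j) + t * Q * ((y i : ℝ) * y j) := by ring
        rw [e] at this
        exact this)
      set al : ℝ := t - a' with hal
      set be : ℝ := t * Q - b' with hbe
      have hsmall : ∀ i j, |al * ((x i : ℝ) * x j) + be * ((y i : ℝ) * y j)| < ε := by
        intro i j
        have := hM (i, j)
        rw [hX] at this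
        push_cast at this
        have e : al * ((x i : ℝ) * x j) + be * ((y i : ℝ) * y j) =
            t * ((x i : ℝ) * x j + Q * (y i * y j)) - (M (i, j) : ℝ) := by
          rw [hal, hbe, hab i j]; ring
        rw [e]
        exact this
      -- the coefficients are small
      have hbe1 : |be * (y sy : ℝ) * (mn x y i0 j0 : ℝ)| ≤ 2 * B * ε := by
        apply small_contr hB (hx.1 i0) (hx.1 j0) (hsmall sy j0) (hsmall sy i0)
        unfold mn
        push_cast
        ring
      have hal1 : |al * (x sx : ℝ) * (mn x y i0 j0 : ℝ)| ≤ 2 * B * ε := by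
        apply small_contr hB (hy.1 j0) (hy.1 i0) (hsmall sx i0) (hsmall sx j0)
        unfold mn
        push_cast
        ring
      have hfin : ∀ (c w : ℝ), B / 4 ≤ |w| → |c * w * (mn x y i0 j0 : ℝ)| ≤ 2 * B * ε →
          |c| * B ^ 2 ≤ 1 / 8 := fun c w hw h => small_coef hB hμ0 hw hij h h64
      have hbe2 := hfin be (y sy) hsy hbe1
      have hal2 := hfin al (x sx) hsx hal1
      -- t * u is close to an integer
      have htu : t * (u : ℝ) = ((∑ i, ∑ j, d i j * M (i, j) : ℤ) : ℝ) + (al * u' + be * v') := by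
        rw [hu, hu'def, hv'def]
        unfold qv
        push_cast
        rw [mul_add, ← mul_assoc t (Q : ℝ)]
        simp only [Finset.mul_sum]
        rw [← Finset.sum_add_distrib, ← Finset.sum_add_distrib, ← Finset.sum_add_distrib]
        refine Finset.sum_congr rfl (fun i _ => ?_)
        rw [← Finset.sum_add_distrib, ← Finset.sum_add_distrib, ← Finset.sum_add_distrib]
        refine Finset.sum_congr rfl (fun j _ => ?_)
        rw [hab i j, hal, hbe]
        ring
      rw [htu]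
      set Z : ℤ := ∑ i, ∑ j, d i j * M (i, j) with hZ
      set θ : ℝ := al * u' + be * v' with hθ
      have hθ1 : |θ| ≤ 1 / 4 := by
        rw [hθ]
        refine (abs_add_le _ _).trans ?_
        rw [abs_mul, abs_mul]
        have h1 := mul_le_mul_of_nonneg_left hu1 (abs_nonneg al)
        have h2 := mul_le_mul_of_nonneg_left hv1 (abs_nonneg be)
        linarith
      have e : 2 * Real.pi * ((Z : ℝ) + θ) = 2 * Real.pi * θ + Z * (2 * Real.pi) := by ring
      rw [e, Real.cos_add_int_mul_two_pi]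
      apply Real.cos_nonneg_of_mem_Icc
      have h3 := abs_le.mp hθ1
      have hpi := Real.pi_pos
      rw [Set.mem_Icc]
      constructor <;> nlinarith [h3.1, h3.2]
  obtain ⟨l, hl1, hl2⟩ := repr_of_cos X B' hB'1 hXb m r hm ε hε hnum' u hub hcos
  -- separation of the two values
  set c : ι → ι → ℤ := fun i j => l (i, j) with hc
  have hlsum : qv c x + Q * qv c y = u' + Q * v' := by
    rw [← hu, ← hl2, Fintype.sum_prod_type]
    unfold qv
    rw [Finset.mul_sum, ← Finset.sum_add_distrib]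
    refine Finset.sum_congr rfl (fun i _ => ?_)
    rw [Finset.mul_sum, ← Finset.sum_add_distrib]
    refine Finset.sum_congr rfl (fun j _ => ?_)
    rw [hX, hc]
    ring
  have hcx : |(qv c x : ℝ)| ≤ k ^ 2 * r * m * B ^ 2 := by
    unfold qv
    push_cast
    have h1 : ∀ i j, |(c i j : ℝ) * ((x i : ℝ) * x j)| ≤ r * m * B ^ 2 := by
      intro i j
      rw [abs_mul]
      have h2 : |(c i j : ℝ)| ≤ (r : ℝ) * m := by
        have := hl1 (i, j)
        exact_mod_cast this
      exact mul_le_mul h2 (hprod x hx.1 i j) (abs_nonneg _) (by positivity)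
    have h2 : ∀ i, |∑ j, (c i j : ℝ) * ((x i : ℝ) * x j)| ≤ k * (r * m * B ^ 2) := by
      intro i
      refine (Finset.abs_sum_le_sum_abs _ _).trans ?_
      refine (Finset.sum_le_sum (fun j _ => h1 i j)).trans (le_of_eq ?_)
      rw [Finset.sum_const, Finset.card_univ, nsmul_eq_mul]
    refine (Finset.abs_sum_le_sum_abs _ _).trans ?_
    refine (Finset.sum_le_sum (fun i _ => h2 i)).trans (le_of_eq ?_)
    rw [Finset.sum_const, Finset.card_univ, nsmul_eq_mul]
    ring
  have hA0 : qv c x - u' = 0 := by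
    have hdvd : Q ∣ qv c x - u' := ⟨v' - qv c y, by linear_combination hlsum⟩
    apply Int.eq_zero_of_abs_lt_dvd hdvd
    have h1 : |((qv c x - u' : ℤ) : ℝ)| < Q := by
      push_cast
      refine lt_of_le_of_lt (abs_sub _ _) ?_
      refine lt_of_le_of_lt ?_ hQ1
      rw [hW]
      nlinarith
    exact_mod_cast h1
  have hcxu : qv c x = u' := by linarith
  have hcyv : qv c y = v' := by
    have h1 : Q * (qv c y - v') = 0 := by linear_combination hlsum - hA0
    rcases mul_eq_zero.mp h1 with h | h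
    · exact absurd h hQpos.ne'
    · linarith
  -- the form
  refine ⟨qf (fun i j => f1 i j + c i j), ?_, ?_, ?_⟩
  · have hb : ∀ i j, |((f1 i j + c i j : ℤ) : ℝ)| ≤ 4 * |(v : ℝ)| / μ + 1 + r * m := by
      intro i j
      push_cast
      refine (abs_add_le _ _).trans ?_
      have h2 : |(c i j : ℝ)| ≤ (r : ℝ) * m := by
        have := hl1 (i, j)
        exact_mod_cast this
      linarith [hf1 i j]
    refine (qf_isF _ (by positivity) hb).mono ?_
    unfold cg
    rw [← hk, pow_zero, mul_one]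
    have hv0 : 0 ≤ |(v : ℝ)| / μ := by positivity
    have e : 4 * |(v : ℝ)| / μ = 4 * (|(v : ℝ)| / μ) := by ring
    rw [e]
    have hrm : 0 ≤ (r : ℝ) * m := by positivity
    have h1 : 4 * (|(v : ℝ)| / μ) + 1 + r * m ≤ 4 * (|(v : ℝ)| / μ + (1 + r * m)) := by linarith
    have h2 : k ≤ k ^ 2 := by nlinarith
    have h3 : 0 ≤ |(v : ℝ)| / μ + (1 + r * m) := by linarith
    calc k * (4 * (|(v : ℝ)| / μ) + 1 + r * m) ≤ k ^ 2 * (4 * (|(v : ℝ)| / μ + (1 + r * m))) :=
          mul_le_mul h2 h1 (by linarith) (by positivity)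
      _ = 4 * k ^ 2 * (|(v : ℝ)| / μ + (1 + r * m)) := by ring
  · rw [eval_qf, qv_add, hcxu, hdx]; ring
  · rw [eval_qf, qv_add, hcyv, hdy]; ring

end Pool.Agent.Y898.D
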